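import Pool.Agent.Helper76.DE.StL

/-!
# Project PRD (MP_77ff3d_nt), module Fxz: exact form of the window sum (helper80)
-/

set_option autoImplicit false

noncomputable section

namespace Pool.Agent.Helper80.PRD

open Pool.Agent.Helper76.ND Pool.Agent.Helper76.DE Finset

theorem hFxz (hBw : StBw) (hPo : StPo) : StFxz := by
  obtain ⟨-, -, hg0, hg1, -⟩ := hPo
  intro z x y f hx hYZ
  obtain ⟨hz1, hY, -⟩ := hYZ
  have hx0 : 0 < x := by linarith
  have hz0 : 0 < z := by linarith
  have hyz : 0 < y / z := lt_of_lt_of_le (Real.rpow_pos_of_pos hx0 _) hY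
  have hy0 : 0 < y := by
    have := mul_pos hyz hz0
    rwa [div_mul_cancel₀ _ hz0.ne'] at this
  have hzl : 0 < zl x := Real.rpow_pos_of_pos hx0 _
  have hzr : 0 < zr x := Real.rpow_pos_of_pos hx0 _
  have hmu0 : ∀ N : ℕ, ((N : ℝ) ≤ y / 2 ∨ 3 / 2 * y ≤ N) → mu y N = 0 := by
    intro N h
    unfold mu
    rcases h with h | h
    · rw [hg0 _ (by rw [div_le_iff₀ hy0]; linarith), zero_div]
    · rw [hg1 _ (by rw [le_div_iff₀ hy0]; linarith), zero_div]
  have h1 : ∀ N : ℕ, N = 0 ∨ ⌊2 * y⌋₊ < N → mu y N = 0 := by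
    intro N hN
    apply hmu0
    rcases hN with hN | hN
    · left; rw [hN]; push_cast; linarith
    · right
      have := (Nat.floor_lt (by linarith)).1 hN
      linarith
  have h2 : ∀ M : ℕ, M = 0 ∨ ⌊z * zr x⌋₊ < M → (fun M => kz z x M * f M) M = 0 := by
    intro M hM
    have : kz z x M = 0 := by
      unfold kz
      rw [if_neg]
      rintro ⟨h3, h4⟩
      rcases hM with hM | hM
      · rw [hM] at h3; push_cast at h3; rw [zero_div] at h3; linarith
      · have h5 := (Nat.floor_lt (by positivity)).1 hM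
        rw [div_le_iff₀ hz0] at h4
        linarith
    simp only [this, zero_mul]
  have h3 : ∀ t : ℕ, ∑ M ∈ Icc 1 ⌊z * zr x⌋₊, kz z x M * f M *
      ∑ l ∈ (W t).filter (fun l => 3 ^ hd l ∣ 2 ^ t * M + cc l),
        mu y ((2 ^ t * M + cc l) / 3 ^ hd l) =
      ∑ N ∈ Icc 1 ⌊2 * y⌋₊, mu y N * (kz z x (S^[t] N) * f (S^[t] N)) := by
    intro t
    exact (hBw t _ _ (mu y) (fun M => kz z x M * f M) h1 h2).symm
  unfold Awz
  rw [Finset.sum_congr rfl (fun t _ => h3 t), Finset.sum_comm]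
  apply Finset.sum_congr rfl
  intro N _
  rw [Finset.mul_sum]

end Pool.Agent.Helper80.PRD
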